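import Pool.Agent.Lib.MP_8f49b0_lc.MM.I.KlCor2
import Pool.Agent.Lib.MP_8f49b0_lc.MM.S.TrEx

/-! # Closed levels (module J-CLS)

`f β` is a strict bound for the conditions `d` (i.e. `Below (f β) d`) chosen for all `g ∈ K.V β` and all `p` with `Sp.In K (Set.Iio β) p` (a small set: such `p` have a finite support, and for every finite
`A` there are only countably many `p` with `Sp.In K A p`; `small_below`, `exists_bound`). If `f β < α` for all `β < α` and `K.Tr α` (hence `α` is a limit ordinal: `f β < α` may be assumed for a function with `β < f β`, and `Tr α` also implies it,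
because `K.cn {β} < α`), every `g ∈ K.V α` and `p` with `Sp.In K (Set.Iio α) p` are bounded below `α`. -/

namespace Pool.Agent.Lib.MP_8f49b0_lc.MM

namespace Code

variable (K : Code)

private theorem cls_small {X : Type*} [Sp K X] (β : O) :
    Small.{0} {p : X // Sp.In K (Set.Iio β) p} := by
  have := small_lists β
  have h1 : {p : X | Sp.In K (Set.Iio β) p} ⊆
      ⋃ l : {l : List O // ∀ ξ ∈ l, ξ < β}, {p : X | Sp.In K {ξ | ξ ∈ l.1} p} := by
    intro p hp
    obtain ⟨A, hA, hAβ, hAp⟩ := Sp.fin (K := K) hp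
    rw [Set.mem_iUnion]
    refine ⟨⟨hA.toFinset.toList, fun ξ hξ => ?_⟩, ?_⟩
    · rw [Finset.mem_toList, Set.Finite.mem_toFinset] at hξ
      exact hAβ hξ
    · refine Sp.mono ?_ hAp
      intro ξ hξ
      change ξ ∈ hA.toFinset.toList
      rw [Finset.mem_toList, Set.Finite.mem_toFinset]
      exact hξ
  have h2 : ∀ l : {l : List O // ∀ ξ ∈ l, ξ < β},
      Small.{0} ({p : X | Sp.In K {ξ | ξ ∈ l.1} p} : Set X) := by
    intro l
    have h3 : ({ξ | ξ ∈ l.1} : Set O).Countable := l.1.finite_toSet.countable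
    have : Countable ({p : X | Sp.In K {ξ | ξ ∈ l.1} p} : Set X) :=
      (Sp.ctb (K := K) h3).to_subtype
    exact Countable.toSmall _
  have h4 : Small.{0} (⋃ l : {l : List O // ∀ ξ ∈ l, ξ < β},
      {p : X | Sp.In K {ξ | ξ ∈ l.1} p} : Set X) := small_iUnion _
  exact small_subset h1

theorem exists_cls {X : Type*} [Sp K X] (D : X → Set Pre) :
    ∃ f : O → O, ∀ α, K.Tr α → (∀ β < α, f β < α) → ∀ p, Sp.In K (Set.Iio α) p → ∀ g ∈ K.V α,
      (∃ c, K.ex c g ∧ c ∈ D p) → ∃ d ∈ K.V α, K.le d g ∧ d ∈ D p := by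
  classical
  -- the choice of the extension and of its bound
  have h1 : ∀ (g : Pre) (p : X), ∃ r : Pre × O, (∃ c, K.ex c g ∧ c ∈ D p) →
      K.ex r.1 g ∧ r.1 ∈ D p ∧ Below r.2 r.1 := by
    intro g p
    by_cases h : ∃ c, K.ex c g ∧ c ∈ D p
    · obtain ⟨c, hc, hcD⟩ := h
      obtain ⟨γ, -, hγ⟩ := hc.1.exists_below 0
      exact ⟨(c, γ), fun _ => ⟨hc, hcD, hγ⟩⟩
    · exact ⟨(g, 0), fun h' => absurd h' h⟩
  choose r hr using h1
  have h2 : ∀ β : O, ∃ γ : O, ∀ x : {c : Pre // Below β c} × {p : X // Sp.In K (Set.Iio β) p},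
      (r x.1.1 x.2.1).2 < γ := by
    intro β
    have := small_below β
    have := cls_small K (X := X) β
    exact exists_bound (fun x : {c : Pre // Below β c} × {p : X // Sp.In K (Set.Iio β) p} =>
      (r x.1.1 x.2.1).2)
  choose f hf using h2
  refine ⟨f, fun α hα hfα p hp g hg hex => ?_⟩
  have hgB := (mem_V.1 hg).1
  obtain ⟨A, hA, hAα, hAp⟩ := Sp.fin (K := K) hp
  -- a bound of everything
  set N : Set O := A ∪ ((⋃ t ∈ g.T, {t.1, t.2.1}) ∪ ⋃ M ∈ g.C, M) with hN
  have hNc : N.Countable := by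
    refine hA.countable.union (Set.Countable.union ?_ ?_)
    · exact Set.Countable.biUnion g.T.countable_toSet
        (fun t _ => (Set.toFinite _).countable)
    · exact Set.Countable.biUnion g.C.countable_toSet (fun M hM => (hgB.C M hM).1)
  have hNα : N ⊆ Set.Iio α := by
    refine Set.union_subset hAα (Set.union_subset ?_ ?_)
    · refine Set.iUnion₂_subset fun t ht => ?_
      rintro ξ (rfl | hξ)
      · exact (hgB.T t ht).1
      · rw [Set.mem_singleton_iff.1 hξ]
        exact (hgB.T t ht).2.1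
    · exact Set.iUnion₂_subset fun M hM => (hgB.C M hM).2
  set β : O := K.cn N with hβ
  have hβα : β < α := hα.cn N hNc hNα
  have hlt : ∀ ξ ∈ N, ξ < β := K.cn_lt N hNc
  have hgβ : Below β g := by
    refine ⟨fun t ht => ⟨hlt _ ?_, hlt _ ?_, (hgB.T t ht).2.2⟩, fun M hM => ⟨(hgB.C M hM).1, ?_⟩,
      hgB.u⟩
    · exact Or.inr (Or.inl (Set.mem_biUnion ht (Or.inl rfl)))
    · exact Or.inr (Or.inl (Set.mem_biUnion ht (Or.inr rfl)))
    · intro ξ hξ
      exact hlt ξ (Or.inr (Or.inr (Set.mem_biUnion hM hξ)))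
  have hpβ : Sp.In K (Set.Iio β) p := by
    refine Sp.mono ?_ hAp
    intro ξ hξ
    exact hlt ξ (Or.inl hξ)
  obtain ⟨e1, e2, e3⟩ := hr g p hex
  have e4 := hf β (⟨g, hgβ⟩, ⟨p, hpβ⟩)
  refine ⟨(r g p).1, mem_V.2 ⟨e3.mono ?_, e1.1⟩, e1.2, e2⟩
  exact (e4.trans (hfα β hβα)).le

/-- conditions at the level `α` are elements of `Set.Iio α` -/
theorem PIn_Iio {α : O} (hα : K.Tr α) {c : Pre} (hc : c ∈ K.V α) : K.PIn (Set.Iio α) c := by
  have hB := (mem_V.1 hc).1
  exact ⟨fun t ht => ⟨(hB.T t ht).1, (hB.T t ht).2.1, (hB.T t ht).2.2.trans hα.w1⟩,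
    fun M hM => ⟨(hB.C M hM).1, hα.cn M (hB.C M hM).1 (hB.C M hM).2⟩,
    fun v hv => (hB.u v hv).trans hα.w1⟩

end Code

end Pool.Agent.Lib.MP_8f49b0_lc.MM
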