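import Pool.Agent.Lib.MP_8f49b0_lc.MM.J.MkGood

/-! # Trivial nodes (module J-TRIVIAL), (4.2) of the paper

Let `x0` code the relation `True` (`K.code` or `exists_code_cl`). Everything is clear for `PreR`; `Inc` from `inc_PB (some α)` (first coordinates); properness: every `(g, h)` with `N ∩ Set.Iio α ∈ g.C` is generic for `N` if `N` is closed under
the function of `refl_PB (some α)` for `E y = {(g, k) : (g, k) ∈ K.en α y}` (`X = O`, `Y = O`). -/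

namespace Pool.Agent.Lib.MP_8f49b0_lc.MM

namespace Code

variable (K : Code)

/-- every `(g, h)` such that the trace of `N` belongs to `g` is generic for `N` if the iterand is trivial -/
theorem gen_trivial {α x0 : O} (hα : K.Tr α) (hx : ∀ g ∈ K.V α, ∀ h' < w1, ∀ h < w1, K.L x0 g h' h) :
    ∃ F : List O → Set O, Fn F ∧ ∀ N, K.Nice N → Cl F N → ∀ a ∈ RS (K.V α), N ∩ Set.Iio α ∈ a.1.C →
      K.Gen (K.V α) α x0 N a := by
  have hb : ∀ β, some α = some β → K.Tr β := by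
    intro β hβ
    obtain rfl := Option.some.inj hβ
    exact hα
  obtain ⟨F, hF, hFN⟩ := refl_PB K (some α) hb (X := O) (Y := O) (fun y => K.en α y)
    (fun p e _ => ⟨{e.2}, Set.mem_singleton _⟩)
  refine ⟨F, hF, fun N hN hCl a ha hNa y hy hD a' ha' hle => ?_⟩
  obtain ⟨d0, hd0, hd0le⟩ := hD.dense a' ha'
  have hd0R := hD.sub hd0
  have hsub : ∀ d ∈ RS (K.V α), d.1 ∈ PB K (some α) := by
    intro d hd
    rw [PB_some]
    exact hd.1
  obtain ⟨e, he, heN, hePB, c', hc', h1, h2⟩ := hFN N hN hCl y hy d0 hd0 (hsub d0 hd0R) (by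
    rw [NB_some]
    exact hd0le.le.C (hle.le.C hNa))
  rw [PB_some] at hc' hePB
  refine ⟨(c', a'.2), ⟨hc', ha'.2⟩, ⟨?_, hx c' hc' _ ha'.2 _ ha'.2⟩, e, he, ⟨heN.1, heN.2⟩, ⟨h2, ?_⟩⟩
  · exact le_trans_of_ok (mem_V.1 hc').2 (mem_V.1 hd0R.1).2 (mem_V.1 ha'.1).2 h1 hd0le.le
  · exact hx c' hc' _ ha'.2 _ (hD.sub he).2

theorem exists_trivial {α : O} (hα : K.Tr α) :
    ∃ x, K.Good (K.V α) α x ∧ ∀ g ∈ K.V α, ∀ h' < w1, ∀ h < w1, K.L x g h' h := by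
  have hb : ∀ β, some α = some β → K.Tr β := by
    intro β hβ
    obtain rfl := Option.some.inj hβ
    exact hα
  obtain ⟨x0, -, hx0⟩ := K.code α (fun _ => ∅) (fun _ _ _ => True) (fun _ => Set.countable_empty)
    (fun _ => Set.empty_subset _)
  have hx : ∀ g ∈ K.V α, ∀ h' < w1, ∀ h < w1, K.L x0 g h' h := fun g hg h' hh' h hh =>
    (hx0 g h' h (mem_V.1 hg).1 hh' hh).2 trivial
  have h0w : (0 : O) < w1 := Ordinal.omega_pos 1
  have hpre : PreR K α x0 :=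
    ⟨fun g hg g' hg' _ h' hh' h hh _ => hx g' hg' h' hh' h hh, fun g hg h hh => hx g hg h hh h hh,
      fun g hg h hh h' _ h'' hh'' _ _ => hx g hg h'' hh'' h hh, fun g hg h hh => hx g hg h hh 0 h0w⟩
  have hinc : K.Inc (K.V α) x0 := by
    intro ι hι Z hZ a0 ha0 hU
    obtain ⟨z1, ⟨k1, hz1⟩, z2, ⟨k2, hz2⟩, a', ha', h1, h2, h3, h4⟩ := inc_PB K (some α) hb ι
      {z | ∃ k, ((z.1, k), z.2) ∈ Z}
      (fun z ⟨k, hk⟩ => by
        rw [PB_some]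
        exact (hZ _ hk).1)
      a0.1 (by rw [PB_some]; exact ha0.1)
      (by
        intro a ha hle γ hγ
        rw [PB_some] at ha
        obtain ⟨z, hz, h1, a', ha', h2, h3⟩ := hU (a, a0.2) ⟨ha, ha0.2⟩ ⟨hle, hx a ha _ ha0.2 _ ha0.2⟩ γ hγ
        refine ⟨(z.1.1, z.2), ⟨z.1.2, hz⟩, h1, a'.1, ?_, h2.le, h3.le⟩
        rw [PB_some]
        exact ha'.1)
    rw [PB_some] at ha'
    exact ⟨((z1.1, k1), z1.2), hz1, ((z2.1, k2), z2.2), hz2, (a', 0), ⟨ha', h0w⟩,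
      ⟨h1, hx a' ha' 0 h0w _ ha0.2⟩, ⟨h2, hx a' ha' 0 h0w _ (hZ _ hz1).2⟩,
      ⟨h3, hx a' ha' 0 h0w _ (hZ _ hz2).2⟩, h4⟩
  obtain ⟨F1, hF1, hF1N⟩ := gen_trivial K hα hx
  obtain ⟨x, hs, hg⟩ := mk_good K hα hpre hinc F1 hF1 (by
    intro N hN hCl _ _ g hg hNg h _ hh
    exact ⟨(g, h), ⟨hg, hh⟩, ⟨le_refl_of_ok (mem_V.1 hg).2, hx g hg h hh h hh⟩, hF1N N hN hCl (g, h) ⟨hg, hh⟩ hNg⟩)
  exact ⟨x, hg, fun g hg h' hh' h hh => (hs g (mem_V.1 hg).1 h' hh' h hh).2 (hx g hg h' hh' h hh)⟩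

end Code

end Pool.Agent.Lib.MP_8f49b0_lc.MM
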