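import Pool.Agent.Lib.MP_8f49b0_lc.MM.I.Order

/-! # Codes of the same relation (module J-CONGR)

`Same α x x'`: the ordinals `x`, `x'` code the same relation at the level `α`. -/

namespace Pool.Agent.Lib.MP_8f49b0_lc.MM

namespace Code

/-- `x` and `x'` code the same relation at the level `α` -/
def Same (K : Code) (α x x' : O) : Prop := ∀ g, Below α g → ∀ h' < w1, ∀ h < w1, (K.L x g h' h ↔ K.L x' g h' h)

variable {K : Code}

theorem Same.symm {α x x' : O} (h : Same K α x x') : Same K α x' x := fun g hg h' hh' k hk =>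
  (h g hg h' hh' k hk).symm

theorem Same.leR {α x x' : O} (h : Same K α x x') {a a' : Pre × O} (ha : a ∈ RS (K.V α)) (ha' : a' ∈ RS (K.V α)) :
    K.leR x a' a ↔ K.leR x' a' a := by
  have h1 := h a'.1 (mem_V.1 ha'.1).1 a'.2 ha'.2 a.2 ha.2
  exact ⟨fun h2 => ⟨h2.le, h1.1 h2.L⟩, fun h2 => ⟨h2.le, h1.2 h2.L⟩⟩

private theorem Congr_DO {α x x' : O} (h : Same K α x x') {D : Set (Pre × O)}
    (hD : K.DO (K.V α) x D) : K.DO (K.V α) x' D := by
  refine ⟨hD.sub, fun a ha => ?_, fun d hd a ha h1 => ?_⟩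
  · obtain ⟨d, hd, h1⟩ := hD.dense a ha
    exact ⟨d, hd, (h.leR ha (hD.sub hd)).1 h1⟩
  · exact hD.opn d hd a ha ((h.leR (hD.sub hd) ha).2 h1)

theorem Same.DO {α x x' : O} (h : Same K α x x') (D : Set (Pre × O)) :
    K.DO (K.V α) x D ↔ K.DO (K.V α) x' D :=
  ⟨fun h1 => Congr_DO h h1, fun h1 => Congr_DO h.symm h1⟩

private theorem Congr_gen {α x x' : O} (h : Same K α x x') {N : Set O} {a : Pre × O} (ha : a ∈ RS (K.V α))
    (hG : K.Gen (K.V α) α x N a) : K.Gen (K.V α) α x' N a := by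
  intro y hy hD a' ha' hle
  have hD' := (h.DO _).2 hD
  obtain ⟨a'', h1, h2, d, h3, h4, h5⟩ := hG y hy hD' a' ha' ((h.leR ha ha').2 hle)
  exact ⟨a'', h1, (h.leR ha' h1).1 h2, d, h3, h4, (h.leR (hD.sub h3) h1).1 h5⟩

private theorem Congr_inc {α x x' : O} (h : Same K α x x') (hI : K.Inc (K.V α) x) : K.Inc (K.V α) x' := by
  intro ι _ Z hZ a0 ha0 hyp
  obtain ⟨z1, h1, z2, h2, a', h3, h4, h5, h6, h7⟩ := hI ι Z hZ a0 ha0 (fun a ha hle γ hγ => by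
    obtain ⟨z, hz, h1, a', h2, h3, h4⟩ := hyp a ha ((h.leR ha0 ha).1 hle) γ hγ
    exact ⟨z, hz, h1, a', h2, (h.leR ha h2).2 h3, (h.leR (hZ z hz) h2).2 h4⟩)
  exact ⟨z1, h1, z2, h2, a', h3, (h.leR ha0 h3).1 h4, (h.leR (hZ z1 h1) h3).1 h5,
    (h.leR (hZ z2 h2) h3).1 h6, h7⟩

theorem Same.gen {α x x' : O} (h : Same K α x x') (N : Set O) {a : Pre × O} (ha : a ∈ RS (K.V α)) :
    K.Gen (K.V α) α x N a ↔ K.Gen (K.V α) α x' N a :=
  ⟨fun h1 => Congr_gen h ha h1, fun h1 => Congr_gen h.symm ha h1⟩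

theorem Same.inc {α x x' : O} (h : Same K α x x') : K.Inc (K.V α) x ↔ K.Inc (K.V α) x' :=
  ⟨fun h1 => Congr_inc h h1, fun h1 => Congr_inc h.symm h1⟩

end Code

end Pool.Agent.Lib.MP_8f49b0_lc.MM
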