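import Pool.Agent.Lib.MP_8f49b0_lc.MM.J.Congr
import Pool.Agent.Lib.MP_8f49b0_lc.MM.I.KlCor2
import Pool.Agent.Lib.MP_8f49b0_lc.MM.S.CodeCl

/-! # Making nodes good (module J-MKGOOD), (4.1) of the paper

`PreR K α x0`: the relation coded by `x0` is a preorder with the top `0`, monotone in `g`.
`mk_good`: let `E (l, h)` (`l` a list of sets of ordinals, `h` an ordinal) be the set of the `g ∈ K.V α` such that
either some `(g, h1) ≤ (g, h)` (with respect to `x0`) is generic for all members of `l`, or no extension of `g` in `K.V α` contains all `N ∩ Set.Iio α`, `N ∈ l`. Let `F` collect: `F1`; the function of `refl_PB (some α)` for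
`E`; the function of `exists_sk` for `R (l, h, g) h1 ↔ h1 < w1 ∧ (g, h1) ≤ (g, h) generic for all members of l`; constants `α`, `x0`. Let `x` be the code of `F` and of the relation coded by `x0` from `exists_code_cl` (`γ` above `α`, `x0`, `io α`).
If `K.Nice N`, `x ∈ N`, then `N ∩ Set.Iio β` is `Nice` (`β` from `exists_code_cl`), closed under `F`, contains `α`, `x0`; its trace on `α` is that of `N`; genericity for `N` and for `N ∩ Set.Iio β` are equivalent (`gen_inter`).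
`proper` for a list `l ++ [N]` (the list is increasing; induction from the right, `List.reverseRecOn`, or on the length), `(g, h)`: by the induction hypothesis for `l` the set `E (l, h)` is dense below `g` in
the following sense: every `g' ≤ g` has an extension in `E (l, h)`; so take `g' ≤ g` in `E (l, h)`; by `refl_PB` there are `d ∈ E (l, h)` in `N` and `g* ≤ g', d`. As `g*` contains all the traces, `(d, h1) ≤ (d, h)` is generic for `l` for some
`h1`, which can be taken in `N`; apply `F1` for `N` to `(g*, h1)`; the result is also `≤ (d, h1)`, hence generic for all members of `l` (`Gen.anti`; it needs a good code of the relation: only `mono`, `refl`, `trans` are used,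
so prove the variant of `Gen.anti`, `leR_trans` for `PreR`). For the members of `l`: `K.cn N' ∈ N`, and `Sp.In K (N ∩ Set.Iio β) l`: replace the members by their traces on `β` (their codes are in `N ∩ Set.Iio β` by `Nice0.cap`, `Tr.cn`). -/

namespace Pool.Agent.Lib.MP_8f49b0_lc.MM

namespace Code

/-- the relation coded by `x` at the level `α` is a monotone preorder with the top `0` -/
structure PreR (K : Code) (α x : O) : Prop where
  mono : ∀ g ∈ K.V α, ∀ g' ∈ K.V α, K.le g' g → ∀ h' < w1, ∀ h < w1, K.L x g h' h → K.L x g' h' h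
  refl : ∀ g ∈ K.V α, ∀ h < w1, K.L x g h h
  trans : ∀ g ∈ K.V α, ∀ h < w1, ∀ h' < w1, ∀ h'' < w1, K.L x g h'' h' → K.L x g h' h → K.L x g h'' h
  top : ∀ g ∈ K.V α, ∀ h < w1, K.L x g h 0

section MkGoodAux

variable {K : Code} {α x0 : O}

private theorem MkGood_refl (h0 : PreR K α x0) {a : Pre × O} (ha : a ∈ RS (K.V α)) : K.leR x0 a a :=
  ⟨le_refl_of_ok (mem_V.1 ha.1).2, h0.refl a.1 ha.1 a.2 ha.2⟩

private theorem MkGood_trans (h0 : PreR K α x0) {a b c : Pre × O} (ha : a ∈ RS (K.V α))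
    (hb : b ∈ RS (K.V α)) (hc : c ∈ RS (K.V α)) (hab : K.leR x0 a b) (hbc : K.leR x0 b c) : K.leR x0 a c := by
  refine ⟨le_trans_of_ok (mem_V.1 ha.1).2 (mem_V.1 hb.1).2 (mem_V.1 hc.1).2 hab.le hbc.le, ?_⟩
  have h1 := h0.mono b.1 hb.1 a.1 ha.1 hab.le b.2 hb.2 c.2 hc.2 hbc.L
  exact h0.trans a.1 ha.1 c.2 hc.2 b.2 hb.2 a.2 ha.2 hab.L h1

private theorem MkGood_anti (h0 : PreR K α x0) {N : Set O} {a a' : Pre × O} (ha : a ∈ RS (K.V α))
    (ha' : a' ∈ RS (K.V α)) (h : K.leR x0 a' a) (hG : K.Gen (K.V α) α x0 N a) : K.Gen (K.V α) α x0 N a' :=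
  fun y hy hD b hb hba => hG y hy hD b hb (MkGood_trans h0 hb ha' ha hba h)

/-- `(g, h1) ≤ (g, h)` is generic for all members of the list -/
private def MkGoodR (K : Code) (α x0 : O) (q : (List (Set O) × O) × Pre) (h1 : O) : Prop :=
  h1 < w1 ∧ K.L x0 q.2 h1 q.1.2 ∧ ∀ N ∈ q.1.1, K.Gen (K.V α) α x0 N (q.2, h1)

/-- the set `E (l, h)` -/
private def MkGoodE (K : Code) (α x0 : O) (q : List (Set O) × O) : Set (Pre × Unit) :=
  {e | e.1 ∈ K.V α ∧ ((∃ h1, MkGoodR K α x0 (q, e.1) h1) ∨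
    ∀ g ∈ K.V α, K.le g e.1 → ¬ ∀ N ∈ q.1, N ∩ Set.Iio α ∈ g.C)}

private theorem MkGood_chain (h0 : PreR K α x0) (F1 F2 F3 : List O → Set O)
    (hp : ∀ N, K.Nice N → Cl F1 N → α ∈ N → x0 ∈ N → ∀ g ∈ K.V α, N ∩ Set.Iio α ∈ g.C → ∀ h ∈ N, h < w1 →
      ∃ a ∈ RS (K.V α), K.leR x0 a (g, h) ∧ K.Gen (K.V α) α x0 N a)
    (hF2 : ∀ N, K.Nice N → Cl F2 N → ∀ p, Sp.In K N p →
      ∀ e ∈ MkGoodE K α x0 p, e.1 ∈ PB K (some α) → NB (some α) N ∈ e.1.C →
      ∃ e' ∈ MkGoodE K α x0 p, Sp.In K N e' ∧ e'.1 ∈ PB K (some α) ∧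
        ∃ c' ∈ PB K (some α), K.le c' e.1 ∧ K.le c' e'.1)
    (hF3 : ∀ N : Set O, Cl F3 N → ∀ q, Sp.In K N q → (∃ h1, MkGoodR K α x0 q h1) →
      ∃ h1, Sp.In K N h1 ∧ MkGoodR K α x0 q h1) (l : List (Set O)) :
    l.Pairwise (fun N N' => K.cn N ∈ N') →
    (∀ N ∈ l, K.Nice N ∧ α ∈ N ∧ x0 ∈ N ∧ Cl F1 N ∧ Cl F2 N ∧ Cl F3 N) →
    ∀ g ∈ K.V α, (∀ N ∈ l, N ∩ Set.Iio α ∈ g.C) → ∀ h < w1, (∀ N ∈ l, h ∈ N) →
    ∃ a ∈ RS (K.V α), K.leR x0 a (g, h) ∧ ∀ N ∈ l, K.Gen (K.V α) α x0 N a := by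
  induction l using List.reverseRecOn with
  | nil =>
    intro _ _ g hg _ h hh _
    exact ⟨(g, h), ⟨hg, hh⟩, MkGood_refl h0 ⟨hg, hh⟩, fun N hN => absurd hN (by simp)⟩
  | append_singleton l N ih =>
    intro hpw hl g hg hgC h hh hhN
    rw [List.pairwise_append] at hpw
    obtain ⟨hpw1, -, hpw2⟩ := hpw
    have hlN : ∀ M ∈ l, K.cn M ∈ N := fun M hM => hpw2 M hM N (by simp)
    obtain ⟨hN, hαN, hxN, hN1, hN2, hN3⟩ := hl N (by simp)
    have hl' : ∀ M ∈ l, K.Nice M ∧ α ∈ M ∧ x0 ∈ M ∧ Cl F1 M ∧ Cl F2 M ∧ Cl F3 M :=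
      fun M hM => hl M (by simp [hM])
    have hgl : ∀ M ∈ l, M ∩ Set.Iio α ∈ g.C := fun M hM => hgC M (by simp [hM])
    have hgN : N ∩ Set.Iio α ∈ g.C := hgC N (by simp)
    have hhN' : h ∈ N := hhN N (by simp)
    -- an extension in the set `E (l, h)`
    obtain ⟨⟨g3, h3⟩, ha3, hle3, hgen3⟩ := ih hpw1 hl' g hg hgl h hh (fun M hM => hhN M (by simp [hM]))
    have hg3 : g3 ∈ K.V α := ha3.1
    have hE3 : ((g3, ()) : Pre × Unit) ∈ MkGoodE K α x0 (l, h) :=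
      ⟨hg3, Or.inl ⟨h3, ha3.2, hle3.L, hgen3⟩⟩
    have hIn : Sp.In K N ((l, h) : List (Set O) × O) :=
      ⟨fun M hM => ⟨(hl' M hM).1.count, hlN M hM⟩, hhN'⟩
    have hNB : NB (some α) N = N ∩ Set.Iio α := by
      ext ξ
      simp [NB]
    obtain ⟨e', he', he'N, he'P, c', hc', hc1, hc2⟩ := hF2 N hN hN2 (l, h) hIn (g3, ()) hE3
      (by rw [PB_some]; exact hg3) (by rw [hNB]; exact hle3.le.C hgN)
    rw [PB_some] at he'P hc'
    -- `c'` contains all the traces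
    have hc'C : ∀ M ∈ g.C, M ∈ c'.C := fun M hM => hc1.C (hle3.le.C hM)
    have hex : ∃ h1, MkGoodR K α x0 ((l, h), e'.1) h1 := by
      rcases he'.2 with h1 | h1
      · exact h1
      · exact absurd (fun M hM => hc'C _ (hgl M hM)) (h1 c' hc' hc2)
    obtain ⟨h1, h1N, h1w, h1L, h1G⟩ := hF3 N hN3 ((l, h), e'.1) ⟨hIn, he'N.1⟩ hex
    obtain ⟨a, ha, hale, hagen⟩ := hp N hN hN1 hαN hxN c' hc' (hc'C _ hgN) h1 h1N h1w
    have hokc : K.Ok c' := (mem_V.1 hc').2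
    -- `(c', h1) ≤ (e'.1, h1)`
    have hb1 : K.leR x0 (c', h1) (e'.1, h1) := ⟨hc2, h0.refl c' hc' h1 h1w⟩
    have hb2 : K.leR x0 a (e'.1, h1) := MkGood_trans h0 ha ⟨hc', h1w⟩ ⟨he'P, h1w⟩ hale hb1
    have hb3 : K.leR x0 (c', h1) (g, h) := by
      refine ⟨le_trans_of_ok hokc (mem_V.1 hg3).2 (mem_V.1 hg).2 hc1 hle3.le, ?_⟩
      exact h0.mono e'.1 he'P c' hc' hc2 h1 h1w h hh h1L
    refine ⟨a, ha, MkGood_trans h0 ha ⟨hc', h1w⟩ ⟨hg, hh⟩ hale hb3, fun M hM => ?_⟩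
    rw [List.mem_append, List.mem_singleton] at hM
    rcases hM with hM | rfl
    · exact MkGood_anti h0 (a := (e'.1, h1)) ⟨he'P, h1w⟩ ha hb2 (h1G M hM)
    · exact hagen

end MkGoodAux

variable (K : Code)

theorem mk_good {α x0 : O} (hα : K.Tr α) (h0 : PreR K α x0) (hinc : K.Inc (K.V α) x0) (F1 : List O → Set O)
    (hF1 : Fn F1) (hp : ∀ N, K.Nice N → Cl F1 N → α ∈ N → x0 ∈ N → ∀ g ∈ K.V α, N ∩ Set.Iio α ∈ g.C → ∀ h ∈ N, h < w1 →
      ∃ a ∈ RS (K.V α), K.leR x0 a (g, h) ∧ K.Gen (K.V α) α x0 N a) :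
    ∃ x, Same K α x x0 ∧ K.Good (K.V α) α x := by
  obtain ⟨F2, hF2, hF2'⟩ := refl_PB K (some α) (fun β hβ => by
    simp only [Option.some.injEq] at hβ
    rw [← hβ]
    exact hα) (MkGoodE K α x0) (fun p e _ => ⟨∅, trivial⟩)
  obtain ⟨F3, hF3, hF3'⟩ := exists_sk K (MkGoodR K α x0) (fun q h1 _ => ⟨{h1}, Set.mem_singleton h1⟩)
  obtain ⟨F4, hF4, hF4'⟩ := exists_const ({α, x0} : Set O) (Set.to_countable _)
  obtain ⟨F5, hF5, hF5'⟩ := exists_merge2 F1 F2 hF1 hF2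
  obtain ⟨F6, hF6, hF6'⟩ := exists_merge2 F3 F4 hF3 hF4
  obtain ⟨F, hF, hF'⟩ := exists_merge2 F5 F6 hF5 hF6
  obtain ⟨x, β, hαβ, hβ, hcode, hcl⟩ := K.exists_code_cl F hF α (K.L x0)
  have hsame : Same K α x x0 := fun g hg h' hh' h hh => hcode g h' h hg hh' hh
  have hV : ∀ g ∈ K.V α, ∀ h' < w1, ∀ h < w1, (K.L x g h' h ↔ K.L x0 g h' h) :=
    fun g hg h' hh' h hh => hsame g (mem_V.1 hg).1 h' hh' h hh
  refine ⟨x, hsame, ?_⟩
  refine ⟨Or.inl hα, ?_, ?_, ?_, ?_, ?_, hsame.inc.2 hinc⟩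
  · intro g hg g' hg' hle h' hh' h hh hL
    rw [hV g' hg' h' hh' h hh]
    rw [hV g hg h' hh' h hh] at hL
    exact h0.mono g hg g' hg' hle h' hh' h hh hL
  · intro g hg h hh
    rw [hV g hg h hh h hh]
    exact h0.refl g hg h hh
  · intro g hg h hh h' hh' h'' hh'' h1 h2
    rw [hV g hg h'' hh'' h hh]
    rw [hV g hg h'' hh'' h' hh'] at h1
    rw [hV g hg h' hh' h hh] at h2
    exact h0.trans g hg h hh h' hh' h'' hh'' h1 h2
  · intro g hg h hh
    have hw : (0 : O) < w1 := lt_of_le_of_lt zero_le hh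
    rw [hV g hg h hh 0 hw]
    exact h0.top g hg h hh
  · intro l hpw hl g hg hgC h hh hhl
    have hα0 : 0 < α := hα.pos
    obtain ⟨a, ha, hale, hagen⟩ := MkGood_chain h0 F1 F2 F3 hp hF2' hF3'
      (l.map (fun N => N ∩ Set.Iio β)) (by
        rw [List.pairwise_map]
        refine hpw.imp_of_mem ?_
        intro N N' hN hN' hcn
        obtain ⟨hN1, -, -⟩ := hl N hN
        obtain ⟨hN1', -, hxN'⟩ := hl N' hN'
        have hβN' := (hcl N' hN1'.toNice0 hxN').1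
        exact ⟨hN1'.cap N hN1.count hcn β hβN',
          hβ.cn _ (hN1.count.mono Set.inter_subset_left) Set.inter_subset_right⟩) (by
        intro M hM
        rw [List.mem_map] at hM
        obtain ⟨N, hN, rfl⟩ := hM
        obtain ⟨hN1, hN2, hN3⟩ := hl N hN
        have h1 := (hcl N hN1.toNice0 hN3).2
        obtain ⟨h2, h3⟩ := hF' _ h1
        obtain ⟨h4, h5⟩ := hF5' _ h2
        obtain ⟨h6, h7⟩ := hF6' _ h3
        have h8 := hF4' _ h7
        exact ⟨hN1.inter hβ, h8 (by simp), h8 (by simp), h4, h5, h6⟩) g hg (by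
        intro M hM
        rw [List.mem_map] at hM
        obtain ⟨N, hN, rfl⟩ := hM
        have h1 : N ∩ Set.Iio β ∩ Set.Iio α = N ∩ Set.Iio α := by
          ext ξ
          simp only [Set.mem_inter_iff, Set.mem_Iio]
          exact ⟨fun h => ⟨h.1.1, h.2⟩, fun h => ⟨⟨h.1, h.2.trans hαβ⟩, h.2⟩⟩
        rw [h1]
        exact hgC hα0 N hN) h hh (by
        intro M hM
        rw [List.mem_map] at hM
        obtain ⟨N, hN, rfl⟩ := hM
        exact ⟨hhl N hN, hh.trans hβ.w1⟩)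
    refine ⟨a, ha, (hsame.leR (a := (g, h)) ⟨hg, hh⟩ ha).2 hale, fun N hN => ?_⟩
    rw [hsame.gen N ha, ← gen_inter hαβ hβ ha]
    exact hagen _ (List.mem_map.2 ⟨N, hN, rfl⟩)

end Code

end Pool.Agent.Lib.MP_8f49b0_lc.MM
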